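import Pool.Agent.Helper85.REC.Stmts10
import Pool.Agent.Helper85.MU.ADE
import Pool.Agent.Helper85.MU.Final

/-!
# Reciprocity, part 9: row ADE2 (finitely many adelic realizations, from SEM, LTS, UNQ)
-/

set_option autoImplicit false

open NumberField

namespace REC

open MU

section

variable {G : Type} [Group G] {n l : ℕ} [Fact l.Prime]

/-- the inclusion of `GL_n(ℤ_l)` in `GL_n(ℚ_l)` -/
noncomputable def ad2Io (n l : ℕ) [Fact l.Prime] :
    Matrix.GeneralLinearGroup (Fin n) ℤ_[l] →* Matrix.GeneralLinearGroup (Fin n) ℚ_[l] :=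
  Matrix.GeneralLinearGroup.map (algebraMap ℤ_[l] ℚ_[l])

lemma ad2Io_coe (u : Matrix.GeneralLinearGroup (Fin n) ℤ_[l]) :
    (ad2Io n l u : Matrix (Fin n) (Fin n) ℚ_[l]) =
      (u : Matrix (Fin n) (Fin n) ℤ_[l]).map (algebraMap ℤ_[l] ℚ_[l]) := rfl

lemma ad2Io_rat (r : G →* Matrix.GeneralLinearGroup (Fin n) ℤ_[l]) (x : G) :
    rat r x = (ad2Io n l (r x) : Matrix (Fin n) (Fin n) ℚ_[l]) := rfl

lemma ad2Io_inj : Function.Injective (ad2Io n l) := by
  intro u v huv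
  apply Units.ext
  have h : ((ad2Io n l u : Matrix.GeneralLinearGroup (Fin n) ℚ_[l]) :
      Matrix (Fin n) (Fin n) ℚ_[l]) = ad2Io n l v := by rw [huv]
  rw [ad2Io_coe, ad2Io_coe] at h
  ext i j
  have h1 := congrFun (congrFun h i) j
  simp only [Matrix.map_apply] at h1
  have h2 : ((u : Matrix (Fin n) (Fin n) ℤ_[l]) i j) = (v : Matrix (Fin n) (Fin n) ℤ_[l]) i j :=
    IsFractionRing.injective ℤ_[l] ℚ_[l] h1
  rw [h2]

/-- a decomposition `g = a t v` gives an intertwining matrix `t v` -/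
lemma ad2_step {r s : G →* Matrix.GeneralLinearGroup (Fin n) ℤ_[l]}
    {g a t : Matrix.GeneralLinearGroup (Fin n) ℚ_[l]}
    {v : Matrix.GeneralLinearGroup (Fin n) ℤ_[l]}
    (hg : ∀ x, (g : Matrix (Fin n) (Fin n) ℚ_[l]) * rat s x = rat r x * g)
    (ha : ∀ x, (a : Matrix (Fin n) (Fin n) ℚ_[l]) * rat r x = rat r x * a)
    (h : g = a * t * ad2Io n l v) (x : G) :
    t * ad2Io n l v * ad2Io n l (s x) = ad2Io n l (r x) * (t * ad2Io n l v) := by
  have hg' : g * ad2Io n l (s x) = ad2Io n l (r x) * g := Units.ext (hg x)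
  have ha' : a * ad2Io n l (r x) = ad2Io n l (r x) * a := Units.ext (ha x)
  have h1 : t * ad2Io n l v = a⁻¹ * g := by rw [h]; group
  have h2 : a⁻¹ * ad2Io n l (r x) = ad2Io n l (r x) * a⁻¹ := by
    rw [inv_mul_eq_iff_eq_mul, ← mul_assoc, ha', mul_assoc, mul_inv_cancel, mul_one]
  rw [h1, mul_assoc, hg', ← mul_assoc, h2, mul_assoc]

/-- two representations with the same `t` are isomorphic over `ℤ_l` -/
lemma ad2_eqv {r s s' : G →* Matrix.GeneralLinearGroup (Fin n) ℤ_[l]}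
    {t : Matrix.GeneralLinearGroup (Fin n) ℚ_[l]}
    {v v' : Matrix.GeneralLinearGroup (Fin n) ℤ_[l]}
    (h : ∀ x, t * ad2Io n l v * ad2Io n l (s x) = ad2Io n l (r x) * (t * ad2Io n l v))
    (h' : ∀ x, t * ad2Io n l v' * ad2Io n l (s' x) = ad2Io n l (r x) * (t * ad2Io n l v')) :
    EqvZ s s' := by
  refine ⟨v'⁻¹ * v, fun x => ad2Io_inj ?_⟩
  simp only [map_mul, map_inv]
  have h1 : ad2Io n l (r x) = t * ad2Io n l v' * ad2Io n l (s' x) * (t * ad2Io n l v')⁻¹ := by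
    rw [h' x]; group
  have h2 : ad2Io n l (s x) = (t * ad2Io n l v)⁻¹ * ad2Io n l (r x) * (t * ad2Io n l v) := by
    rw [mul_assoc, ← h x]; group
  rw [h2, h1]
  group

/-- the finiteness of the classes of lattices as a coloring -/
lemma ad2_color (hLTS : ST_LTS) (r : G →* Matrix.GeneralLinearGroup (Fin n) ℤ_[l])
    (hr : IsSS (rat r)) :
    ∃ (m : ℕ) (f : (G →* Matrix.GeneralLinearGroup (Fin n) ℤ_[l]) → ℕ), (∀ s, f s < m) ∧
      ∀ s s', EqvQ r s → EqvQ r s' → f s = f s' → EqvZ s s' := by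
  classical
  obtain ⟨T, hT⟩ := hLTS G n l r hr
  obtain ⟨m, ⟨e⟩⟩ := Finite.exists_equiv_fin T
  have key : ∀ s, EqvQ r s → ∃ t : T, ∃ v : Matrix.GeneralLinearGroup (Fin n) ℤ_[l],
      ∀ x, (t : Matrix.GeneralLinearGroup (Fin n) ℚ_[l]) * ad2Io n l v * ad2Io n l (s x) =
        ad2Io n l (r x) * ((t : Matrix.GeneralLinearGroup (Fin n) ℚ_[l]) * ad2Io n l v) := by
    rintro s ⟨u, hu⟩
    have hu' : ∀ x, u * ad2Io n l (r x) = ad2Io n l (s x) * u := fun x => Units.ext (hu x)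
    have hg : ∀ x, ((u⁻¹ : Matrix.GeneralLinearGroup (Fin n) ℚ_[l]) :
        Matrix (Fin n) (Fin n) ℚ_[l]) * rat s x = rat r x *
        ((u⁻¹ : Matrix.GeneralLinearGroup (Fin n) ℚ_[l]) : Matrix (Fin n) (Fin n) ℚ_[l]) := by
      intro x
      have h1 : u⁻¹ * ad2Io n l (s x) = ad2Io n l (r x) * u⁻¹ := by
        rw [inv_mul_eq_iff_eq_mul, ← mul_assoc, hu' x, mul_assoc, mul_inv_cancel, mul_one]
      exact congrArg Units.val h1
    obtain ⟨t, ht, a, v, ha, hv⟩ := hT s u⁻¹ hg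
    have hv' : u⁻¹ = a * t * ad2Io n l v := Units.ext hv
    exact ⟨⟨t, ht⟩, v, fun x => ad2_step hg ha hv' x⟩
  let f : (G →* Matrix.GeneralLinearGroup (Fin n) ℤ_[l]) → ℕ := fun s =>
    if h : EqvQ r s then (e (key s h).choose : ℕ) else m
  refine ⟨m + 1, f, fun s => ?_, fun s s' hs hs' hff => ?_⟩
  · by_cases h : EqvQ r s
    · have h1 : f s = (e (key s h).choose : ℕ) := dif_pos h
      rw [h1]
      have := (e (key s h).choose).2
      omega
    · have h1 : f s = m := dif_neg h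
      omega
  · have h1 : f s = (e (key s hs).choose : ℕ) := dif_pos hs
    have h2 : f s' = (e (key s' hs').choose : ℕ) := dif_pos hs'
    rw [h1, h2] at hff
    have h3 := e.injective (Fin.ext hff)
    obtain ⟨v, hv⟩ := (key s hs).choose_spec
    obtain ⟨v', hv'⟩ := (key s' hs').choose_spec
    rw [← h3] at hv'
    exact ad2_eqv hv hv'

/-- the large primes -/
lemma ad2_large (hUNQ : ST_UNQ) (r s : G →* Matrix.GeneralLinearGroup (Fin n) ℤ_[l])
    (hr : Cpl r) (hs : EqvQ r s) : EqvZ s r := by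
  obtain ⟨u, hu⟩ := hs
  have hu' : ∀ x, u * ad2Io n l (r x) = ad2Io n l (s x) * u := fun x => Units.ext (hu x)
  have hg : ∀ x, ((u⁻¹ : Matrix.GeneralLinearGroup (Fin n) ℚ_[l]) :
      Matrix (Fin n) (Fin n) ℚ_[l]) * rat s x = rat r x *
      ((u⁻¹ : Matrix.GeneralLinearGroup (Fin n) ℚ_[l]) : Matrix (Fin n) (Fin n) ℚ_[l]) := by
    intro x
    have h1 : u⁻¹ * ad2Io n l (s x) = ad2Io n l (r x) * u⁻¹ := by
      rw [inv_mul_eq_iff_eq_mul, ← mul_assoc, hu' x, mul_assoc, mul_inv_cancel, mul_one]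
    exact congrArg Units.val h1
  obtain ⟨a, v, ha, hv⟩ := hUNQ G n l r hr s u⁻¹ hg
  have hv' : u⁻¹ = a * 1 * ad2Io n l v := by
    rw [mul_one]
    exact Units.ext hv
  have h1 := fun x => ad2_step hg ha hv' x
  have h2 : ∀ x, (1 : Matrix.GeneralLinearGroup (Fin n) ℚ_[l]) * ad2Io n l 1 * ad2Io n l (r x) =
      ad2Io n l (r x) * (1 * ad2Io n l 1) := by
    intro x
    simp
  exact ad2_eqv h1 h2

end

theorem st_ADE2' (hFAL : MU.ST_FAL) (hTRQ : MU.ST_TRQ) (hSEM : ST_SEM) (hLTS : ST_LTS)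
    (hUNQ : ST_UNQ) : ST_ADE2 := by
  classical
  intro F _ _ S hS n w h
  obtain ⟨κ, hκ, col, hcol⟩ := hFAL F S hS n w h
  -- representatives
  have hrep : ∀ k : κ, ∃ (c m : ℕ) (f : ∀ (l : ℕ) [Fact l.Prime],
      (Gal F →* Matrix.GeneralLinearGroup (Fin n) ℤ_[l]) → ℕ),
      (∀ (l : ℕ) [Fact l.Prime], l ≤ c → ∀ s, f l s < m) ∧
      ∀ M M' : Mot F S n w h, Reg2 M → Reg2 M' → col M = k → col M' = k →
        ∀ (l : ℕ) [Fact l.Prime], (c < l ∨ f l (M.ρ l) = f l (M'.ρ l)) →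
          EqvZ (M.ρ l) (M'.ρ l) := by
    intro k
    by_cases hk : ∃ R : Mot F S n w h, Reg2 R ∧ col R = k
    · obtain ⟨R, hR, hRk⟩ := hk
      obtain ⟨h1', c, hc⟩ := hR
      have h1 : ∀ (l : ℕ) [Fact l.Prime], IsSS (rat (R.ρ l)) := fun l _ => h1' l
      have h2 : ∀ (l : ℕ) [Fact l.Prime] (M : Mot F S n w h), Reg2 M → col M = k →
          EqvQ (R.ρ l) (M.ρ l) := by
        intro l _ M hM2 hM
        have htr := hTRQ F S hS n w h R M (hcol R M (hRk.trans hM.symm)) l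
        exact hSEM (Gal F) ℚ_[l] n (rat (R.ρ l)) (rat (M.ρ l)) (h1 l) (hM2.1 l) htr
      have h3 : ∀ (l : ℕ) (_ : Fact l.Prime), ∃ (m : ℕ)
          (f : (Gal F →* Matrix.GeneralLinearGroup (Fin n) ℤ_[l]) → ℕ), (∀ s, f s < m) ∧
          ∀ s s', EqvQ (R.ρ l) s → EqvQ (R.ρ l) s' → f s = f s' → EqvZ s s' :=
        fun l _ => ad2_color hLTS (R.ρ l) (h1 l)
      choose m f hf1 hf2 using h3
      let m' : ℕ → ℕ := fun l => if hl : l.Prime then m l ⟨hl⟩ else 0
      refine ⟨c, (Finset.range (c + 1)).sup m', fun l hl => f l hl, ?_, ?_⟩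
      · intro l hl hlc s
        refine (hf1 l hl s).trans_le ?_
        have h4 : m' l = m l hl := dif_pos hl.out
        rw [← h4]
        exact Finset.le_sup (f := m') (Finset.mem_range.2 (by omega))
      · intro M M' hM hM' hMk hM'k l hl hor
        rcases hor with hcl | hff
        · have h5 := ad2_large hUNQ (R.ρ l) (M.ρ l) (hc l hcl) (h2 l M hM hMk)
          have h6 := ad2_large hUNQ (R.ρ l) (M'.ρ l) (hc l hcl) (h2 l M' hM' hM'k)
          exact h5.trans h6.symm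
        · exact hf2 l hl _ _ (h2 l M hM hMk) (h2 l M' hM' hM'k) hff
    · refine ⟨0, 0, fun l _ _ => 0, ?_, ?_⟩
      · intro l hl h0
        have := hl.out.pos
        omega
      · intro M M' hM hM' hMk
        exact absurd ⟨M, hM, hMk⟩ hk
  choose c m f hf1 hf2 using hrep
  have : Fintype κ := Fintype.ofFinite κ
  set C : ℕ := Finset.univ.sup c with hC
  set D : ℕ := Finset.univ.sup m with hD
  have hcC : ∀ k, c k ≤ C := fun k => Finset.le_sup (Finset.mem_univ k)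
  have hmD : ∀ k, m k ≤ D := fun k => Finset.le_sup (Finset.mem_univ k)
  refine ⟨κ × (Fin (C + 1) → Fin (D + 1)), inferInstance, fun M => (col M, fun l =>
    if hl : (l : ℕ).Prime then
      ⟨min D (@f (col M) l ⟨hl⟩ (@Mot.ρ _ _ _ _ _ _ _ M l ⟨hl⟩)), by omega⟩ else 0), ?_⟩
  intro M M' hM hM' hMM' l hl
  have e1 : col M = col M' := congrArg Prod.fst hMM'
  have e2 := congrArg Prod.snd hMM'
  have key : EqvZ (M.ρ l) (M'.ρ l) := by
    refine hf2 (col M) M M' hM hM' rfl e1.symm l ?_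
    by_cases hlc : c (col M) < l
    · exact Or.inl hlc
    · right
      push Not at hlc
      have hlC : l < C + 1 := by have := hcC (col M); omega
      have e3 := congrFun e2 ⟨l, hlC⟩
      simp only [hl.out, dif_pos] at e3
      have e4 := congrArg Fin.val e3
      simp only at e4
      have b1 := (hf1 (col M) l hlc (M.ρ l)).le.trans (hmD _)
      have b2 := (hf1 (col M) l hlc (M'.ρ l)).le.trans (hmD _)
      rw [← e1] at e4
      rw [min_eq_right b1, min_eq_right b2] at e4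
      exact e4
  exact key

theorem st_ADE2 (hSEM : ST_SEM) (hLTS : ST_LTS) (hUNQ : ST_UNQ) : ST_ADE2 :=
  st_ADE2' all_FAL all_TRQ hSEM hLTS hUNQ

end REC
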